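import Mathlib

/-!
# Pivot positions of a subspace with respect to a weight, interpolation, and a greedy selection
-/

set_option autoImplicit false

namespace Pool.Agent.TH711.PC

open Finset

/-- The pivot positions of a subspace of `α → k` with respect to an injective weight: there are at
least `finrank V` positions `s` such that `V` contains a vector whose first entry is `1` at `s`. -/
theorem exists_pivots {k α : Type} [Field k] [Fintype α] [DecidableEq α] (w : α → ℕ)
    (V : Submodule k (α → k)) :
    ∃ S : Finset α, Module.finrank k V ≤ S.card ∧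
      ∀ s ∈ S, ∃ v ∈ V, v s = 1 ∧ ∀ u, w u < w s → v u = 0 := by
  classical
  refine ⟨univ.filter fun s => ∃ v ∈ V, v s = 1 ∧ ∀ u, w u < w s → v u = 0, ?_,
    fun s hs => (mem_filter.1 hs).2⟩
  set S : Finset α := univ.filter fun s => ∃ v ∈ V, v s = 1 ∧ ∀ u, w u < w s → v u = 0 with hS
  let φ : V →ₗ[k] (S → k) :=
    { toFun := fun v s => (v : α → k) s
      map_add' := fun a b => rfl
      map_smul' := fun a b => rfl }
  have hinj : Function.Injective φ := by
    rw [← LinearMap.ker_eq_bot, LinearMap.ker_eq_bot']
    rintro ⟨v, hv⟩ h0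
    by_contra hne
    have hsup : (univ.filter fun u => v u ≠ 0).Nonempty := by
      by_contra h1
      rw [not_nonempty_iff_eq_empty, filter_eq_empty_iff] at h1
      refine hne (Subtype.ext (funext fun u => ?_))
      exact not_not.1 (h1 (mem_univ u))
    obtain ⟨u0, hu0, hmin⟩ := exists_min_image _ w hsup
    have hu0' : v u0 ≠ 0 := (mem_filter.1 hu0).2
    have hmem : u0 ∈ S := by
      rw [hS, mem_filter]
      refine ⟨mem_univ _, (v u0)⁻¹ • v, V.smul_mem _ hv, ?_, fun u hu => ?_⟩
      · simp [hu0']
      · have : v u = 0 := by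
          by_contra h2
          exact absurd (hmin u (mem_filter.2 ⟨mem_univ _, h2⟩)) (not_le.2 hu)
        simp [this]
    exact hu0' (congrFun h0 ⟨u0, hmem⟩)
  calc Module.finrank k V ≤ Module.finrank k (S → k) :=
        LinearMap.finrank_le_finrank_of_injective hinj
    _ = S.card := by simp

/-- Extraction of the constant term of a polynomial of degree at most `D` from the values at
`D + 1` distinct points. -/
theorem exists_interp {k : Type} [Field k] (D : ℕ) (e : Fin (D + 1) → k)
    (he : Function.Injective e) :
    ∃ l : Fin (D + 1) → k, ∀ m ≤ D, ∑ j, l j * e j ^ m = if m = 0 then 1 else 0 := by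
  classical
  have hdet : IsUnit (Matrix.vandermonde e).transpose := by
    rw [Matrix.isUnit_iff_isUnit_det, Matrix.det_transpose, isUnit_iff_ne_zero]
    exact Matrix.det_vandermonde_ne_zero_iff.2 he
  obtain ⟨l, hl⟩ := (Matrix.mulVec_surjective_iff_isUnit.2 hdet)
    (fun m : Fin (D + 1) => if (m : ℕ) = 0 then (1 : k) else 0)
  refine ⟨l, fun m hm => ?_⟩
  have := congrFun hl ⟨m, by omega⟩
  simp only [Matrix.mulVec, dotProduct, Matrix.transpose_apply, Matrix.vandermonde_apply] at this
  rw [← this]
  exact sum_congr rfl fun j _ => mul_comm _ _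

/-- A greedy matching in a set of positions with few elements in every line. -/
theorem exists_matching {n : ℕ} (h : ℕ) (hh : 1 ≤ h) : ∀ (m : ℕ) (S : Finset (Fin n × Fin n)),
    (∀ i, (S.filter fun p => p.1 = i).card ≤ h) → (∀ j, (S.filter fun p => p.2 = j).card ≤ h) →
    2 * h * m ≤ S.card →
    ∃ f : Fin m → Fin n × Fin n, (∀ t, f t ∈ S) ∧ Function.Injective (fun t => (f t).1) ∧
      Function.Injective fun t => (f t).2
  | 0, S, _, _, _ => ⟨Fin.elim0, fun t => t.elim0, fun t => t.elim0, fun t => t.elim0⟩
  | m + 1, S, h1, h2, h3 => by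
    classical
    have hne : S.Nonempty := by
      rw [← card_pos]
      have : 1 ≤ h * (m + 1) := Nat.mul_pos hh (Nat.succ_pos m)
      nlinarith
    obtain ⟨p, hp⟩ := hne
    set S' := S.filter fun r => r.1 ≠ p.1 ∧ r.2 ≠ p.2 with hS'
    have hcard : 2 * h * m ≤ S'.card := by
      have h4 : S ⊆ S' ∪ ((S.filter fun r => r.1 = p.1) ∪ S.filter fun r => r.2 = p.2) := by
        intro r hr
        simp only [hS', mem_union, mem_filter]
        tauto
      have h5 := card_le_card h4
      have h6 := card_union_le S' ((S.filter fun r => r.1 = p.1) ∪ S.filter fun r => r.2 = p.2)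
      have h7 := card_union_le (S.filter fun r => r.1 = p.1) (S.filter fun r => r.2 = p.2)
      have h8 := h1 p.1
      have h9 := h2 p.2
      have h10 : 2 * h * (m + 1) = 2 * h * m + 2 * h := by ring
      omega
    obtain ⟨f, f1, f2, f3⟩ := exists_matching h hh m S'
      (fun i => (card_le_card (filter_subset_filter _ (filter_subset _ _))).trans (h1 i))
      (fun j => (card_le_card (filter_subset_filter _ (filter_subset _ _))).trans (h2 j)) hcard
    refine ⟨Fin.cons p f, ?_, ?_, ?_⟩
    · intro t
      refine Fin.cases ?_ (fun t => ?_) t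
      · simpa using hp
      · simpa using (mem_filter.1 (f1 t)).1
    · intro t t' htt
      induction t using Fin.cases with
      | zero =>
        induction t' using Fin.cases with
        | zero => rfl
        | succ t' => exact absurd (by simpa using htt.symm) (mem_filter.1 (f1 t')).2.1
      | succ t =>
        induction t' using Fin.cases with
        | zero => exact absurd (by simpa using htt) (mem_filter.1 (f1 t)).2.1
        | succ t' => exact congrArg Fin.succ (f2 (by simpa using htt))
    · intro t t' htt
      induction t using Fin.cases with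
      | zero =>
        induction t' using Fin.cases with
        | zero => rfl
        | succ t' => exact absurd (by simpa using htt.symm) (mem_filter.1 (f1 t')).2.2
      | succ t =>
        induction t' using Fin.cases with
        | zero => exact absurd (by simpa using htt) (mem_filter.1 (f1 t)).2.2
        | succ t' => exact congrArg Fin.succ (f3 (by simpa using htt))

/-- Distinct representatives of large finite sets. -/
theorem exists_reps {ι β : Type} [Fintype ι] [DecidableEq ι] [DecidableEq β] (T : ι → Finset β)
    (h : ∀ t, Fintype.card ι ≤ (T t).card) :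
    ∃ f : ι → β, Function.Injective f ∧ ∀ t, f t ∈ T t := by
  refine (Finset.all_card_le_biUnion_card_iff_exists_injective T).1 fun s => ?_
  rcases s.eq_empty_or_nonempty with rfl | ⟨t, ht⟩
  · simp
  · exact (card_le_univ s).trans ((h t).trans (card_le_card (subset_biUnion_of_mem T ht)))

/-- In a set of at least `2 n (q - 1) + 2 q ^ 4` positions there is a matching of size `q ^ 2`, or
there are `q` rows or `q` columns with at least `q ^ 2` positions each. -/
theorem trichotomy {n : ℕ} (q : ℕ) (hq : 1 ≤ q) (S : Finset (Fin n × Fin n))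
    (hS : 2 * n * (q - 1) + 2 * q ^ 4 ≤ S.card) :
    (∃ f : Fin q × Fin q → Fin n × Fin n, (∀ t, f t ∈ S) ∧ Function.Injective (fun t => (f t).1) ∧
      Function.Injective fun t => (f t).2) ∨
    (∃ (R : Fin q → Fin n) (j : Fin q × Fin q → Fin n), Function.Injective R ∧
      Function.Injective j ∧ ∀ t, (R t.1, j t) ∈ S) ∨
    ∃ (C : Fin q → Fin n) (i : Fin q × Fin q → Fin n), Function.Injective C ∧
      Function.Injective i ∧ ∀ t, (i t, C t.2) ∈ S := by
  classical
  set HR : Finset (Fin n) := univ.filter fun i => q ^ 2 ≤ (S.filter fun p => p.1 = i).card with hHR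
  set HC : Finset (Fin n) := univ.filter fun j => q ^ 2 ≤ (S.filter fun p => p.2 = j).card with hHC
  by_cases h1 : q ≤ HR.card
  · right; left
    obtain ⟨HR', hsub, hcard⟩ := exists_subset_card_eq h1
    let e := HR'.equivFinOfCardEq hcard
    have hR : ∀ a : Fin q, q ^ 2 ≤ (S.filter fun p => p.1 = (e.symm a : Fin n)).card := fun a =>
      (mem_filter.1 (hsub (e.symm a).2)).2
    obtain ⟨j, hj1, hj2⟩ := exists_reps (ι := Fin q × Fin q)
      (fun t => univ.filter fun j : Fin n => ((e.symm t.1 : Fin n), j) ∈ S) (by
        intro t
        rw [Fintype.card_prod, Fintype.card_fin, ← pow_two]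
        refine (hR t.1).trans ?_
        refine card_le_card_of_injOn (fun p => p.2) ?_ ?_
        · intro p hp
          have hp' := mem_filter.1 (mem_coe.1 hp)
          simp only [coe_filter, mem_univ, true_and, Set.mem_ofPred_eq]
          rw [← hp'.2]
          exact hp'.1
        · intro p hp p' hp' hpp
          have a1 := (mem_filter.1 (mem_coe.1 hp)).2
          have a2 := (mem_filter.1 (mem_coe.1 hp')).2
          exact Prod.ext (a1.trans a2.symm) hpp)
    refine ⟨fun a => (e.symm a : Fin n), j, fun a a' haa => ?_, hj1, fun t => ?_⟩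
    · exact e.symm.injective (Subtype.ext haa)
    · exact (mem_filter.1 (hj2 t)).2
  by_cases h2 : q ≤ HC.card
  · right; right
    obtain ⟨HC', hsub, hcard⟩ := exists_subset_card_eq h2
    let e := HC'.equivFinOfCardEq hcard
    have hC : ∀ a : Fin q, q ^ 2 ≤ (S.filter fun p => p.2 = (e.symm a : Fin n)).card := fun a =>
      (mem_filter.1 (hsub (e.symm a).2)).2
    obtain ⟨j, hj1, hj2⟩ := exists_reps (ι := Fin q × Fin q)
      (fun t => univ.filter fun i : Fin n => (i, (e.symm t.2 : Fin n)) ∈ S) (by
        intro t
        rw [Fintype.card_prod, Fintype.card_fin, ← pow_two]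
        refine (hC t.2).trans ?_
        refine card_le_card_of_injOn (fun p => p.1) ?_ ?_
        · intro p hp
          have hp' := mem_filter.1 (mem_coe.1 hp)
          simp only [coe_filter, mem_univ, true_and, Set.mem_ofPred_eq]
          rw [← hp'.2]
          exact hp'.1
        · intro p hp p' hp' hpp
          have a1 := (mem_filter.1 (mem_coe.1 hp)).2
          have a2 := (mem_filter.1 (mem_coe.1 hp')).2
          exact Prod.ext hpp (a1.trans a2.symm))
    refine ⟨fun a => (e.symm a : Fin n), j, fun a a' haa => ?_, hj1, fun t => ?_⟩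
    · exact e.symm.injective (Subtype.ext haa)
    · exact (mem_filter.1 (hj2 t)).2
  · left
    set S' := S.filter fun p => p.1 ∉ HR ∧ p.2 ∉ HC with hS'
    have hsub : S ⊆ S' ∪ (HR ×ˢ univ ∪ univ ×ˢ HC) := by
      intro p hp
      simp only [hS', mem_union, mem_filter, mem_product, mem_univ, and_true, true_and]
      tauto
    have hc := card_le_card hsub
    have hc1 := card_union_le S' (HR ×ˢ (univ : Finset (Fin n)) ∪ univ ×ˢ HC)
    have hc2 := card_union_le (HR ×ˢ (univ : Finset (Fin n))) ((univ : Finset (Fin n)) ×ˢ HC)
    rw [card_product, card_product, card_univ, Fintype.card_fin] at hc2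
    have hc3 : HR.card * n ≤ (q - 1) * n := Nat.mul_le_mul_right _ (by omega)
    have hc4 : n * HC.card ≤ n * (q - 1) := Nat.mul_le_mul_left _ (by omega)
    have hbig : 2 * q ^ 2 * q ^ 2 ≤ S'.card := by
      have e1 : 2 * n * (q - 1) = (q - 1) * n + n * (q - 1) := by ring
      have e2 : 2 * q ^ 2 * q ^ 2 = 2 * q ^ 4 := by ring
      rw [e2]
      omega
    have hrow : ∀ i, (S'.filter fun p => p.1 = i).card ≤ q ^ 2 := by
      intro i
      by_cases hi : i ∈ HR
      · have : (S'.filter fun p => p.1 = i) = ∅ := by
          rw [filter_eq_empty_iff]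
          intro p hp hpi
          rw [hS', mem_filter] at hp
          exact hp.2.1 (hpi ▸ hi)
        rw [this]
        simp
      · have h5 : ¬ q ^ 2 ≤ (S.filter fun p => p.1 = i).card := fun h => hi (by simp [hHR, h])
        exact (card_le_card (filter_subset_filter _ (filter_subset _ _))).trans (by omega)
    have hcol : ∀ j, (S'.filter fun p => p.2 = j).card ≤ q ^ 2 := by
      intro i
      by_cases hi : i ∈ HC
      · have : (S'.filter fun p => p.2 = i) = ∅ := by
          rw [filter_eq_empty_iff]
          intro p hp hpi
          rw [hS', mem_filter] at hp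
          exact hp.2.2 (hpi ▸ hi)
        rw [this]
        simp
      · have h5 : ¬ q ^ 2 ≤ (S.filter fun p => p.2 = i).card := fun h => hi (by simp [hHC, h])
        exact (card_le_card (filter_subset_filter _ (filter_subset _ _))).trans (by omega)
    obtain ⟨f, f1, f2, f3⟩ := exists_matching (q ^ 2) (Nat.one_le_pow _ _ hq) (q ^ 2) S' hrow hcol
      hbig
    let e : Fin q × Fin q ≃ Fin (q ^ 2) := Fintype.equivOfCardEq (by simp [pow_two])
    exact ⟨fun t => f (e t), fun t => (mem_filter.1 (f1 (e t))).1, fun t t' h => e.injective (f2 h),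
      fun t t' h => e.injective (f3 h)⟩

end Pool.Agent.TH711.PC
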