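import Pool.Agent.TH711.PC.Main

/-!
# Spaces of dimension `c n` on all of whose cosets the permanent is easy
-/

set_option autoImplicit false

namespace Pool.Agent.TH711.PC

open Finset MvPolynomial Pool.Agent.TH837.VP.Bd

variable {k : Type} [Field k]

/-- The matrices supported in the first `c` columns. -/
noncomputable def firstCols (k : Type) [Field k] (c m : ℕ) (s : Fin (c * (c + m))) :
    Matrix (Fin (c + m)) (Fin (c + m)) k :=
  Matrix.single (finProdFinEquiv.symm s).2 (Fin.castAdd m (finProdFinEquiv.symm s).1) 1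

theorem firstCols_li (k : Type) [Field k] (c m : ℕ) :
    LinearIndependent k (firstCols k c m) := by
  have h := (Matrix.stdBasis k (Fin (c + m)) (Fin (c + m))).linearIndependent
  have h2 := h.comp (fun s : Fin (c * (c + m)) =>
    ((finProdFinEquiv.symm s).2, Fin.castAdd m (finProdFinEquiv.symm s).1)) (by
      intro s s' hss
      simp only [Prod.mk.injEq] at hss
      refine finProdFinEquiv.symm.injective (Prod.ext ?_ hss.1)
      exact Fin.castAdd_injective _ _ hss.2)
  convert h2 using 1
  funext s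
  simp [firstCols, Matrix.stdBasis_eq_single]

theorem slo_prod {K σ : Type} [Field K] (c s : ℕ) (p : Fin c → MvPolynomial σ K)
    (h : ∀ j, ∃ L : List (MvPolynomial σ K), Slo L ∧ L.length ≤ s ∧ Av L (p j)) :
    ∃ L : List (MvPolynomial σ K), Slo L ∧ L.length ≤ c * (s + 1) ∧ Av L (∏ j, p j) := by
  induction c with
  | zero => exact ⟨[], trivial, by simp, Or.inr (Or.inl ⟨1, by simp⟩)⟩
  | succ c ih =>
    obtain ⟨L, h1, h2, h3⟩ := ih (fun j => p j.castSucc) (fun j => h j.castSucc)
    obtain ⟨L', h1', h2', h3'⟩ := h (Fin.last c)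
    refine ⟨((∏ j : Fin c, p j.castSucc) * p (Fin.last c)) :: (L ++ L'),
      ⟨⟨_, _, ?_, ?_, Or.inr (Or.inr rfl)⟩, h1.append h1'⟩, ?_, ?_⟩
    · exact h3.mono fun r hr => List.mem_append_left _ hr
    · exact h3'.mono fun r hr => List.mem_append_right _ hr
    · simp only [List.length_cons, List.length_append]
      rw [Nat.succ_mul]
      omega
    · rw [Fin.prod_univ_castSucc]
      exact Or.inr (Or.inr List.mem_cons_self)

theorem cper_firstCols (c m : ℕ) (A : Matrix (Fin (c + m)) (Fin (c + m)) k) :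
    ∃ κ : (Fin c → Fin (c + m)) → k, cper (firstCols k c m) A =
      ∑ f : Fin c → Fin (c + m), C (κ f) * ∏ l : Fin c,
        (C (A (f l) (Fin.castAdd m l)) + X (finProdFinEquiv (l, f l))) := by
  classical
  refine ⟨fun f => ∑ σ ∈ univ.filter fun σ : Equiv.Perm (Fin (c + m)) =>
    (fun l => σ (Fin.castAdd m l)) = f, ∏ l : Fin m, A (σ (Fin.natAdd c l)) (Fin.natAdd c l), ?_⟩
  unfold cper Matrix.permanent
  rw [← sum_fiberwise (univ : Finset (Equiv.Perm (Fin (c + m))))
    (fun σ => fun l : Fin c => σ (Fin.castAdd m l))]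
  refine sum_congr rfl fun f _ => ?_
  rw [map_sum, sum_mul]
  refine sum_congr rfl fun σ hσ => ?_
  rw [mem_filter] at hσ
  rw [Fin.prod_univ_add, map_prod]
  refine Eq.trans (congrArg₂ (· * ·) ?_ ?_) (mul_comm _ _)
  rotate_left
  · refine prod_congr rfl fun l _ => ?_
    rw [Matrix.of_apply, sum_eq_zero, add_zero]
    intro s _
    have : firstCols k c m s (σ (Fin.natAdd c l)) (Fin.natAdd c l) = 0 := by
      unfold firstCols
      rw [Matrix.single_apply, if_neg]
      rintro ⟨-, h⟩
      have := congrArg Fin.val h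
      simp only [Fin.val_castAdd, Fin.val_natAdd] at this
      have := (finProdFinEquiv.symm s).1.2
      omega
    rw [this, C_0, zero_mul]
  · refine prod_congr rfl fun l _ => ?_
    have h1 : σ (Fin.castAdd m l) = f l := congrFun hσ.2 l
    rw [Matrix.of_apply, h1]
    congr 1
    rw [sum_eq_single (finProdFinEquiv (l, f l))]
    · unfold firstCols
      simp
    · intro s _ hs
      have : firstCols k c m s (f l) (Fin.castAdd m l) = 0 := by
        unfold firstCols
        rw [Matrix.single_apply, if_neg]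
        rintro ⟨h2, h3⟩
        refine hs ?_
        rw [← h2, ← Fin.castAdd_injective _ _ h3, Prod.mk.eta, Equiv.apply_symm_apply]
      rw [this, C_0, zero_mul]
    · intro h
      exact absurd (mem_univ _) h

theorem slo_firstCols (c m : ℕ) (A : Matrix (Fin (c + m)) (Fin (c + m)) k) :
    ∃ L : List (MvPolynomial (Fin (c * (c + m))) k), Slo L ∧
      L.length ≤ (c + m) ^ c * (2 * c + 2) ∧ Av L (cper (firstCols k c m) A) := by
  obtain ⟨κ, hκ⟩ := cper_firstCols c m A
  have h1 : ∀ f : Fin c → Fin (c + m), ∃ L : List (MvPolynomial (Fin (c * (c + m))) k), Slo L ∧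
      L.length ≤ c * 2 ∧ Av L (∏ l : Fin c,
        (C (A (f l) (Fin.castAdd m l)) + X (finProdFinEquiv (l, f l)))) := fun f =>
    slo_prod c 1 _ fun l => ⟨[C (A (f l) (Fin.castAdd m l)) + X (finProdFinEquiv (l, f l))],
      ⟨⟨_, _, Or.inr (Or.inl ⟨_, rfl⟩), Or.inl ⟨_, rfl⟩, Or.inl rfl⟩, trivial⟩, le_rfl,
      Or.inr (Or.inr List.mem_cons_self)⟩
  obtain ⟨L, h2, h3, h4⟩ := Slo.linear_combination ((c + m) ^ c) (c * 2)
    (fun j => κ (finFunctionFinEquiv.symm j)) _ fun j => h1 (finFunctionFinEquiv.symm j)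
  refine ⟨L, h2, by rwa [mul_comm c 2] at h3, ?_⟩
  rw [hκ]
  convert h4 using 1
  exact (Fintype.sum_equiv finFunctionFinEquiv.symm _ _ fun j => rfl).symm

end Pool.Agent.TH711.PC
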