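import Pool.Agent.TH711.PC.Main

/-!
# Families of linear spaces of dimension at least `n ^ (1 + δ)`
-/

set_option autoImplicit false

namespace Pool.Agent.TH711.PC

open Finset MvPolynomial Pool.Agent.TH837.VP Pool.Agent.TH837.VP.Bd

variable {k : Type} [Field k]

/-- The permanent on a coset is a projection by linear forms of the permanent. -/
theorem apx_cper {n d r : ℕ} (b : Fin d → Matrix (Fin n) (Fin n) k)
    (A : Matrix (Fin n) (Fin n) k) (h : Apx r (gper k n)) :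
    Apx (r + n * n * ((d + 1) * 2)) (cper b A) := by
  obtain ⟨P, hP, L, h1, h2, h3⟩ := h
  set ℓ : Fin n × Fin n → MvPolynomial (Fin d) k := fun u =>
    C (A u.1 u.2) + ∑ s, C (b s u.1 u.2) * X s with hℓ
  have key : ∀ u : Fin n × Fin n, ∃ L : List (MvPolynomial (Fin d) (RatFunc k)), Slo L ∧
      L.length ≤ (d + 1) * (0 + 2) ∧ Av L (map (RatFunc.C : k →+* RatFunc k) (ℓ u)) := by
    intro u
    obtain ⟨L, h1, h2, h3⟩ := Slo.linear_combination (σ := Fin d) (d + 1) 0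
      (Fin.cons (RatFunc.C (A u.1 u.2)) fun s => RatFunc.C (b s u.1 u.2))
      (Fin.cons 1 fun s => X s)
      (fun j => by
        refine Fin.cases ?_ (fun j => ?_) j
        · exact ⟨[], trivial, by simp, Or.inr (Or.inl ⟨1, by simp⟩)⟩
        · exact ⟨[], trivial, by simp, Or.inl ⟨j, by simp⟩⟩)
    refine ⟨L, h1, h2, ?_⟩
    convert h3 using 1
    rw [Fin.sum_univ_succ]
    simp [hℓ]
  choose f f1 f2 f3 using fun j : Fin (n * n) => key (finProdFinEquiv.symm j)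
  obtain ⟨L0, k1, k2, k3⟩ := Slo.flat ((d + 1) * (0 + 2)) (n * n) f fun s => ⟨f1 s, f2 s⟩
  obtain ⟨L', l1, l2, l4⟩ := Slo.subst
    (aeval fun u => map (RatFunc.C : k →+* RatFunc k) (ℓ u)) L0 k1
    (by
      intro v
      rw [aeval_X]
      have := k3 (finProdFinEquiv v) _ (f3 (finProdFinEquiv v))
      rwa [Equiv.symm_apply_apply] at this) L h1
  have h5 := hP.subst ℓ
  have h6 : aeval ℓ (gper k n) = cper b A := by
    unfold gper cper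
    rw [algHom_permanent]
    congr 1
    ext1 i j
    simp [hℓ]
  rw [h6] at h5
  exact ⟨_, h5, L', l1, by rw [l2]; simp only [Nat.zero_add] at k2; omega, l4 _ h3⟩

theorem apx_gper_zero : Apx 0 (gper k 0) := by
  refine ⟨1, ?_, [], trivial, le_rfl, Or.inr (Or.inl ⟨1, by simp⟩)⟩
  have h : gper k 0 = 1 := by
    unfold gper Matrix.permanent
    simp
  rw [h, sp_iff]
  exact ⟨1, by simp, by simp⟩

/-- The choice of the size. -/
theorem size_choice (δ : ℝ) (hδ : 0 < δ) (n₀ q : ℕ) (hq : 1 ≤ q) (d : ℕ → ℕ)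
    (hd : ∀ n : ℕ, n₀ ≤ n → (n : ℝ) ^ (1 + δ) ≤ d n) :
    2 * q ^ 2 + q ≤ n₀ + (4 * (q + 1)) ^ (⌈1 / δ⌉₊ + 3) ∧
    2 * (n₀ + (4 * (q + 1)) ^ (⌈1 / δ⌉₊ + 3)) * (q - 1) + 2 * q ^ 4 ≤
      d (n₀ + (4 * (q + 1)) ^ (⌈1 / δ⌉₊ + 3)) := by
  set t := ⌈1 / δ⌉₊ with ht
  set n := n₀ + (4 * (q + 1)) ^ (t + 3) with hn
  have h1 : (4 * (q + 1)) ^ 3 ≤ n :=
    (Nat.pow_le_pow_right (by omega) (by omega)).trans (Nat.le_add_left _ _)
  have h2 : 64 * (q + 1) ^ 3 ≤ n := by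
    calc 64 * (q + 1) ^ 3 = (4 * (q + 1)) ^ 3 := by ring
      _ ≤ n := h1
  have h3 : q ^ 3 ≤ (q + 1) ^ 3 := Nat.pow_le_pow_left (by omega) 3
  have h4 : 2 * q ^ 2 + q ≤ n := by nlinarith
  refine ⟨h4, ?_⟩
  have h5 := hd n (by omega)
  have h6 : (4 * (q + 1) : ℝ) ≤ (n : ℝ) ^ δ := by
    have a1 : (((4 * (q + 1)) ^ t : ℕ) : ℝ) ≤ (n : ℝ) := by
      exact_mod_cast (Nat.pow_le_pow_right (by omega) (by omega)).trans
        (Nat.le_add_left ((4 * (q + 1)) ^ (t + 3)) n₀)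
    have a2 : (1 : ℝ) ≤ t * δ := by
      have := Nat.le_ceil (1 / δ)
      rw [← ht, div_le_iff₀ hδ] at this
      exact this
    have a3 : (1 : ℝ) ≤ 4 * (q + 1) := by
      have : (0 : ℝ) ≤ q := Nat.cast_nonneg q
      linarith
    calc (4 * (q + 1) : ℝ) = (4 * (q + 1) : ℝ) ^ (1 : ℝ) := (Real.rpow_one _).symm
      _ ≤ (4 * (q + 1) : ℝ) ^ (t * δ : ℝ) := Real.rpow_le_rpow_of_exponent_le a3 a2
      _ = (((4 * (q + 1)) ^ t : ℕ) : ℝ) ^ δ := by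
          rw [Real.rpow_mul (by linarith), Real.rpow_natCast]
          push_cast
          rfl
      _ ≤ (n : ℝ) ^ δ := Real.rpow_le_rpow (Nat.cast_nonneg _) a1 hδ.le
  have hn0 : (0 : ℝ) < n := by
    have : 0 < n := by omega
    exact_mod_cast this
  have h7 : (n : ℝ) * (4 * (q + 1)) ≤ d n := by
    refine le_trans ?_ h5
    rw [Real.rpow_add hn0, Real.rpow_one]
    exact mul_le_mul_of_nonneg_left h6 hn0.le
  have h8 : n * (4 * (q + 1)) ≤ d n := by exact_mod_cast h7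
  refine le_trans ?_ h8
  have h9 : q ^ 3 ≤ n := by omega
  have h10 : 2 * n * (q - 1) ≤ 2 * n * q := Nat.mul_le_mul_left _ (by omega)
  have h11 : 2 * q ^ 4 ≤ 2 * n * q := by
    calc 2 * q ^ 4 = 2 * q ^ 3 * q := by ring
      _ ≤ 2 * n * q := Nat.mul_le_mul_right _ (by omega)
  nlinarith

/-- **Families of linear spaces.** -/
theorem tfae [Infinite k] (δ : ℝ) (hδ : 0 < δ) (d : ℕ → ℕ)
    (b : ∀ n, Fin (d n) → Matrix (Fin n) (Fin n) k) (hb : ∀ n, LinearIndependent k (b n))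
    (hd : ∃ n₀ : ℕ, ∀ n : ℕ, n₀ ≤ n → (n : ℝ) ^ (1 + δ) ≤ d n) :
    [∃ K e : ℕ, ∀ m, Apx (K * (m + 1) ^ e) (gper k m),
      ∃ K e : ℕ, ∀ n A, Apx (K * (n + 1) ^ e) (cper (b n) A),
      ∃ K e : ℕ, ∀ n, ∃ g : MvPolynomial (Fin n × Fin n) k, g ≠ 0 ∧
        ∀ A : Matrix (Fin n) (Fin n) k, eval (fun u => A u.1 u.2) g ≠ 0 →
          Apx (K * (n + 1) ^ e) (cper (b n) A)].TFAE := by
  tfae_have 1 → 2 := by
    rintro ⟨K, e, h⟩
    refine ⟨K + 4, e + 4, fun n A => (apx_cper (b n) A (h n)).mono ?_⟩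
    have h1 := card_le (b n) (hb n)
    have h2 : 1 ≤ (n + 1) ^ e := Nat.one_le_pow _ _ (by omega)
    have h3 : 1 ≤ (n + 1) ^ 4 := Nat.one_le_pow _ _ (by omega)
    have h4 : K * (n + 1) ^ e ≤ K * (n + 1) ^ (e + 4) :=
      Nat.mul_le_mul_left _ (Nat.pow_le_pow_right (by omega) (by omega))
    have h5 : n * n * ((d n + 1) * 2) ≤ 4 * (n + 1) ^ (e + 4) := by
      calc n * n * ((d n + 1) * 2) ≤ (n + 1) * (n + 1) * (((n + 1) * (n + 1)) * 2) :=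
            Nat.mul_le_mul (by nlinarith) (by nlinarith)
        _ = 2 * (n + 1) ^ 4 := by ring
        _ ≤ 4 * ((n + 1) ^ e * (n + 1) ^ 4) := by nlinarith
        _ = 4 * (n + 1) ^ (e + 4) := by rw [pow_add]
    calc K * (n + 1) ^ e + n * n * ((d n + 1) * 2)
        ≤ K * (n + 1) ^ (e + 4) + 4 * (n + 1) ^ (e + 4) := Nat.add_le_add h4 h5
      _ = (K + 4) * (n + 1) ^ (e + 4) := (add_mul _ _ _).symm
  tfae_have 2 → 3 := by
    rintro ⟨K, e, h⟩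
    exact ⟨K, e, fun n => ⟨1, one_ne_zero, fun A _ => h n A⟩⟩
  tfae_have 3 → 1 := by
    rintro ⟨K, e, h⟩
    obtain ⟨n₀, hn₀⟩ := hd
    refine ⟨(K + 2) * ((n₀ + 2) * 4 ^ (⌈1 / δ⌉₊ + 3)) ^ (e + 6), (⌈1 / δ⌉₊ + 3) * (e + 6),
      fun q => ?_⟩
    rcases Nat.eq_zero_or_pos q with rfl | hq
    · exact apx_gper_zero.mono (Nat.zero_le _)
    obtain ⟨h1, h2⟩ := size_choice δ hδ n₀ q hq d hn₀
    set t := ⌈1 / δ⌉₊ with ht
    set n := n₀ + (4 * (q + 1)) ^ (t + 3) with hn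
    obtain ⟨g, hg, h3⟩ := h n
    refine (reduction hq h1 (b n) (hb n) h2 g hg h3).mono ?_
    have h4 : n + 1 ≤ (n₀ + 2) * 4 ^ (t + 3) * (q + 1) ^ (t + 3) := by
      have a1 : 1 ≤ (4 * (q + 1)) ^ (t + 3) := Nat.one_le_pow _ _ (by omega)
      rw [mul_assoc, ← mul_pow, hn]
      nlinarith
    have h5 : (n ^ 3 + 1) * (K * (n + 1) ^ e + n ^ 3 + 2) ≤ (K + 2) * (n + 1) ^ (e + 6) := by
      have a1 : n ^ 3 + 1 ≤ (n + 1) ^ 3 := by nlinarith [Nat.zero_le n]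
      have a2 : 1 ≤ (n + 1) ^ e := Nat.one_le_pow _ _ (by omega)
      have a3 : 1 ≤ (n + 1) ^ 3 := Nat.one_le_pow _ _ (by omega)
      have a4 : K * (n + 1) ^ e + n ^ 3 + 2 ≤ (K + 2) * ((n + 1) ^ e * (n + 1) ^ 3) := by
        have b1 : (n + 1) ^ e ≤ (n + 1) ^ e * (n + 1) ^ 3 := Nat.le_mul_of_pos_right _ a3
        have b2 : (n + 1) ^ 3 ≤ (n + 1) ^ e * (n + 1) ^ 3 := Nat.le_mul_of_pos_left _ a2
        have b3 : K * (n + 1) ^ e ≤ K * ((n + 1) ^ e * (n + 1) ^ 3) := Nat.mul_le_mul_left _ b1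
        rw [add_mul]
        omega
      calc (n ^ 3 + 1) * (K * (n + 1) ^ e + n ^ 3 + 2)
          ≤ (n + 1) ^ 3 * ((K + 2) * ((n + 1) ^ e * (n + 1) ^ 3)) := Nat.mul_le_mul a1 a4
        _ = (K + 2) * (n + 1) ^ (e + 6) := by ring
    refine h5.trans ?_
    calc (K + 2) * (n + 1) ^ (e + 6)
        ≤ (K + 2) * ((n₀ + 2) * 4 ^ (t + 3) * (q + 1) ^ (t + 3)) ^ (e + 6) :=
          Nat.mul_le_mul_left _ (Nat.pow_le_pow_left h4 _)
      _ = (K + 2) * ((n₀ + 2) * 4 ^ (t + 3)) ^ (e + 6) * (q + 1) ^ ((t + 3) * (e + 6)) := by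
          rw [mul_pow _ ((q + 1) ^ (t + 3)), ← pow_mul, mul_assoc]
  tfae_finish

end Pool.Agent.TH711.PC
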