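import Mathlib

/-!
# Constant matrices with few variable entries whose permanent is the generic permanent
-/

set_option autoImplicit false
set_option linter.unusedSectionVars false

namespace Pool.Agent.TH711.PC

open Finset

variable {R : Type} [CommRing R] {q : ℕ} {ρ : Type} [Fintype ρ] [DecidableEq ρ]

/-- The index type of the first gadget. -/
abbrev TM (q : ℕ) (ρ : Type) : Type := ((Fin q × Fin q) ⊕ (Fin q × Fin q)) ⊕ (Fin q ⊕ ρ)

/-- The first gadget: the variable entries are in distinct rows and in distinct columns. -/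
def gM (y : Fin q × Fin q → R) : Matrix (TM q ρ) (TM q ρ) R
  | .inl (.inl t), .inl (.inl u) => if t = u then y t else 0
  | .inl (.inl t), .inl (.inr u) => if t = u then 1 else 0
  | .inl (.inl _), .inr _ => 0
  | .inl (.inr t), .inl (.inl u) => if t = u then 1 else 0
  | .inl (.inr _), .inl (.inr _) => 0
  | .inl (.inr t), .inr (.inl b) => if t.2 = b then 1 else 0
  | .inl (.inr _), .inr (.inr _) => 0
  | .inr (.inl _), .inl (.inl _) => 0
  | .inr (.inl a), .inl (.inr u) => if u.1 = a then 1 else 0
  | .inr (.inl _), .inr _ => 0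
  | .inr (.inr _), .inl _ => 0
  | .inr (.inr _), .inr (.inl _) => 0
  | .inr (.inr r), .inr (.inr s) => if r = s then 1 else 0

/-- The permutation of the gadget attached to a permutation. -/
def fM (τ : Equiv.Perm (Fin q)) : TM q ρ → TM q ρ
  | .inl (.inl t) => if τ t.2 = t.1 then .inl (.inl t) else .inl (.inr t)
  | .inl (.inr t) => if τ t.2 = t.1 then .inr (.inl t.1) else .inl (.inl t)
  | .inr (.inl b) => .inl (.inr (τ b, b))
  | .inr (.inr r) => .inr (.inr r)

lemma fM_inj (τ : Equiv.Perm (Fin q)) : Function.Injective (fM (ρ := ρ) τ) := by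
  rintro ((t | t) | (b | r)) ((u | u) | (c | s)) h <;> simp only [fM] at h <;>
    try split_ifs at h
  all_goals try simp_all
  · rename_i h1 h2
    exact Prod.ext h (τ.injective (h1.trans h2.symm))
  · subst h
    simp_all

/-- The same as a permutation. -/
noncomputable def pM (τ : Equiv.Perm (Fin q)) : Equiv.Perm (TM q ρ) :=
  Equiv.ofBijective (fM τ) (Finite.injective_iff_bijective.mp (fM_inj τ))

lemma pM_inj : Function.Injective (pM (q := q) (ρ := ρ)) := by
  intro τ τ' h
  ext b
  have h1 : fM (ρ := ρ) τ (.inr (.inl b)) = fM τ' (.inr (.inl b)) :=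
    congrArg (fun e : Equiv.Perm (TM q ρ) => e (.inr (.inl b))) h
  simp only [fM] at h1
  simp at h1
  rw [h1]

lemma exists_pM (y : Fin q × Fin q → R) (π : Equiv.Perm (TM q ρ))
    (h : ∀ x, gM y (π x) x ≠ 0) : ∃ τ, pM τ = π := by
  have hZ : ∀ r, π (.inr (.inr r)) = .inr (.inr r) := by
    intro r
    have h1 := h (.inr (.inr r))
    rcases hh : π (.inr (.inr r)) with ((t | t) | (b | s)) <;> rw [hh] at h1 <;> simp [gM] at h1
    rw [h1.1]
  have hB : ∀ b, ∃ a, π (.inr (.inl b)) = .inl (.inr (a, b)) := by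
    intro b
    have h1 := h (.inr (.inl b))
    rcases hh : π (.inr (.inl b)) with ((t | t) | (c | s)) <;> rw [hh] at h1 <;> simp [gM] at h1
    exact ⟨t.1, by rw [← h1.1]⟩
  have hJ : ∀ t, π (.inl (.inl t)) = .inl (.inl t) ∨ π (.inl (.inl t)) = .inl (.inr t) := by
    intro t
    have h1 := h (.inl (.inl t))
    rcases hh : π (.inl (.inl t)) with ((u | u) | (c | s)) <;> rw [hh] at h1 <;> simp [gM] at h1
    · left; rw [h1.1]
    · right; rw [h1.1]
  have hC : ∀ t, π (.inl (.inr t)) = .inl (.inl t) ∨ π (.inl (.inr t)) = .inr (.inl t.1) := by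
    intro t
    have h1 := h (.inl (.inr t))
    rcases hh : π (.inl (.inr t)) with ((u | u) | (c | s)) <;> rw [hh] at h1 <;> simp [gM] at h1
    · left; rw [h1.1]
    · right; rw [h1.1]
  choose s hs using hB
  have hJ1 : ∀ t : Fin q × Fin q, s t.2 = t.1 → π (.inl (.inl t)) = .inl (.inl t) := by
    intro t ht
    rcases hJ t with h1 | h1
    · exact h1
    · have h2 := hs t.2
      rw [ht] at h2
      have := π.injective (h1.trans h2.symm)
      simp at this
  have hC1 : ∀ t : Fin q × Fin q, s t.2 = t.1 → π (.inl (.inr t)) = .inr (.inl t.1) := by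
    intro t ht
    rcases hC t with h1 | h1
    · have := π.injective (h1.trans (hJ1 t ht).symm)
      simp at this
    · exact h1
  have hJ2 : ∀ t : Fin q × Fin q, s t.2 ≠ t.1 → π (.inl (.inl t)) = .inl (.inr t) := by
    intro t ht
    obtain ⟨x, hx⟩ := π.surjective (.inl (.inr t))
    rcases x with ((u | u) | (c | r))
    · rcases hJ u with h1 | h1
      · rw [h1] at hx; simp at hx
      · rw [h1] at hx
        have : u = t := by simpa using hx
        rw [← this]
        exact h1
    · rcases hC u with h1 | h1 <;> rw [h1] at hx <;> simp at hx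
    · rw [hs c] at hx
      have h3 : (s c, c) = t := by simpa using hx
      exact absurd (by rw [← h3]) ht
    · rw [hZ r] at hx
      simp at hx
  have hC2 : ∀ t : Fin q × Fin q, s t.2 ≠ t.1 → π (.inl (.inr t)) = .inl (.inl t) := by
    intro t ht
    obtain ⟨x, hx⟩ := π.surjective (.inl (.inl t))
    rcases x with ((u | u) | (c | r))
    · rcases hJ u with h1 | h1
      · rw [h1] at hx
        have h3 : u = t := by simpa using hx
        subst h3
        rw [hJ2 u ht] at h1
        simp at h1
      · rw [h1] at hx; simp at hx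
    · rcases hC u with h1 | h1
      · rw [h1] at hx
        have : u = t := by simpa using hx
        rw [← this]
        exact h1
      · rw [h1] at hx; simp at hx
    · rw [hs c] at hx; simp at hx
    · rw [hZ r] at hx; simp at hx
  have hinj : Function.Injective s := by
    intro b b' hbb
    have h1 := hC1 (s b, b) rfl
    have h2 := hC1 (s b', b') rfl
    have h3 : (Sum.inr (Sum.inl (s b)) : TM q ρ) = Sum.inr (Sum.inl (s b')) := by rw [hbb]
    have h4 := π.injective (h1.trans (h3.trans h2.symm))
    simp only [Sum.inl.injEq, Sum.inr.injEq, Prod.mk.injEq] at h4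
    exact h4.2
  refine ⟨Equiv.ofBijective s (Finite.injective_iff_bijective.mp hinj), Equiv.ext fun x => ?_⟩
  show fM _ x = π x
  rcases x with ((t | t) | (b | r))
  · by_cases ht : s t.2 = t.1
    · rw [hJ1 t ht]; simp [fM, ht]
    · rw [hJ2 t ht]; simp [fM, ht]
  · by_cases ht : s t.2 = t.1
    · rw [hC1 t ht]; simp [fM, ht]
    · rw [hC2 t ht]; simp [fM, ht]
  · rw [hs b]; simp [fM]
  · rw [hZ r]; simp [fM]

lemma prod_pM (y : Fin q × Fin q → R) (τ : Equiv.Perm (Fin q)) :
    ∏ b, (Matrix.of fun a b => y (a, b)) (τ b) b = ∏ x : TM q ρ, gM y (pM τ x) x := by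
  have h1 : ∀ t : Fin q × Fin q, gM (ρ := ρ) y (pM τ (.inl (.inl t))) (.inl (.inl t))
      = if τ t.2 = t.1 then y t else 1 := by
    intro t
    show gM y (fM τ (.inl (.inl t))) _ = _
    by_cases ht : τ t.2 = t.1 <;> simp [fM, gM, ht]
  have h2 : ∀ t : Fin q × Fin q, gM (ρ := ρ) y (pM τ (.inl (.inr t))) (.inl (.inr t)) = 1 := by
    intro t
    show gM y (fM τ (.inl (.inr t))) _ = _
    by_cases ht : τ t.2 = t.1 <;> simp [fM, gM, ht]
  have h3 : ∀ b : Fin q, gM (ρ := ρ) y (pM τ (.inr (.inl b))) (.inr (.inl b)) = 1 := by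
    intro b
    show gM y (fM τ (.inr (.inl b))) _ = _
    simp [fM, gM]
  have h4 : ∀ r : ρ, gM y (pM τ (.inr (.inr r))) (.inr (.inr r)) = 1 := by
    intro r
    show gM y (fM τ (.inr (.inr r))) _ = _
    simp [fM, gM]
  rw [Fintype.prod_sum_type, Fintype.prod_sum_type, Fintype.prod_sum_type]
  simp only [h1, h2, h3, h4, prod_const_one, mul_one]
  rw [Fintype.prod_prod_type, prod_comm]
  refine prod_congr rfl fun b _ => ?_
  simp

/-- The permanent of the first gadget. -/
theorem permanent_gM (y : Fin q × Fin q → R) :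
    (gM (ρ := ρ) y).permanent = (Matrix.of fun a b => y (a, b)).permanent := by
  classical
  unfold Matrix.permanent
  refine (Fintype.sum_of_injective (pM (q := q) (ρ := ρ)) pM_inj _ _ ?_ ?_).symm
  · intro π hπ
    by_contra h1
    refine hπ (exists_pM y π fun x hx => h1 ?_)
    exact prod_eq_zero (mem_univ x) hx
  · intro τ
    exact prod_pM y τ

/-- The index type of the second gadget. -/
abbrev TR (q : ℕ) (ρ : Type) : Type := (Fin q × Fin q) ⊕ (Fin q ⊕ ρ)

/-- The second gadget: the variable entries are in distinct columns and in `q` rows. -/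
def gR (y : Fin q × Fin q → R) : Matrix (TR q ρ) (TR q ρ) R
  | .inl t, .inl u => if t = u then 1 else 0
  | .inl t, .inr (.inl b) => if t.2 = b then 1 else 0
  | .inl _, .inr (.inr _) => 0
  | .inr (.inl a), .inl u => if u.1 = a then y u else 0
  | .inr (.inl _), .inr _ => 0
  | .inr (.inr _), .inl _ => 0
  | .inr (.inr _), .inr (.inl _) => 0
  | .inr (.inr r), .inr (.inr s) => if r = s then 1 else 0

/-- The permutation of the gadget attached to a permutation. -/
def fR (τ : Equiv.Perm (Fin q)) : TR q ρ → TR q ρ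
  | .inl t => if τ t.2 = t.1 then .inr (.inl t.1) else .inl t
  | .inr (.inl b) => .inl (τ b, b)
  | .inr (.inr r) => .inr (.inr r)

lemma fR_inj (τ : Equiv.Perm (Fin q)) : Function.Injective (fR (ρ := ρ) τ) := by
  rintro (t | (b | r)) (u | (c | s)) h <;> simp only [fR] at h <;>
    try split_ifs at h
  all_goals try simp_all
  · rename_i h1 h2
    exact Prod.ext h (τ.injective (h1.trans h2.symm))
  · subst h
    simp_all

/-- The same as a permutation. -/
noncomputable def pR (τ : Equiv.Perm (Fin q)) : Equiv.Perm (TR q ρ) :=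
  Equiv.ofBijective (fR τ) (Finite.injective_iff_bijective.mp (fR_inj τ))

lemma pR_inj : Function.Injective (pR (q := q) (ρ := ρ)) := by
  intro τ τ' h
  ext b
  have h1 : fR (ρ := ρ) τ (.inr (.inl b)) = fR τ' (.inr (.inl b)) :=
    congrArg (fun e : Equiv.Perm (TR q ρ) => e (.inr (.inl b))) h
  simp only [fR] at h1
  simp at h1
  rw [h1]

lemma exists_pR (y : Fin q × Fin q → R) (π : Equiv.Perm (TR q ρ))
    (h : ∀ x, gR y (π x) x ≠ 0) : ∃ τ, pR τ = π := by
  have hZ : ∀ r, π (.inr (.inr r)) = .inr (.inr r) := by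
    intro r
    have h1 := h (.inr (.inr r))
    rcases hh : π (.inr (.inr r)) with (t | (b | s)) <;> rw [hh] at h1 <;> simp [gR] at h1
    rw [h1.1]
  have hB : ∀ b, ∃ a, π (.inr (.inl b)) = .inl (a, b) := by
    intro b
    have h1 := h (.inr (.inl b))
    rcases hh : π (.inr (.inl b)) with (t | (c | s)) <;> rw [hh] at h1 <;> simp [gR] at h1
    exact ⟨t.1, by rw [← h1.1]⟩
  have hJ : ∀ t, π (.inl t) = .inl t ∨ π (.inl t) = .inr (.inl t.1) := by
    intro t
    have h1 := h (.inl t)
    rcases hh : π (.inl t) with (u | (c | s)) <;> rw [hh] at h1 <;> simp [gR] at h1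
    · left; rw [h1.1]
    · right; rw [h1.1]
  choose s hs using hB
  have hJ1 : ∀ t : Fin q × Fin q, s t.2 = t.1 → π (.inl t) = .inr (.inl t.1) := by
    intro t ht
    rcases hJ t with h1 | h1
    · have h2 := hs t.2
      rw [ht] at h2
      have := π.injective (h1.trans h2.symm)
      simp at this
    · exact h1
  have hJ2 : ∀ t : Fin q × Fin q, s t.2 ≠ t.1 → π (.inl t) = .inl t := by
    intro t ht
    obtain ⟨x, hx⟩ := π.surjective (.inl t)
    rcases x with (u | (c | r))
    · rcases hJ u with h1 | h1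
      · rw [h1] at hx
        have : u = t := by simpa using hx
        rw [← this]
        exact h1
      · rw [h1] at hx; simp at hx
    · rw [hs c] at hx
      have h3 : (s c, c) = t := by simpa using hx
      exact absurd (by rw [← h3]) ht
    · rw [hZ r] at hx
      simp at hx
  have hinj : Function.Injective s := by
    intro b b' hbb
    have h1 := hJ1 (s b, b) rfl
    have h2 := hJ1 (s b', b') rfl
    have h3 : (Sum.inr (Sum.inl (s b)) : TR q ρ) = Sum.inr (Sum.inl (s b')) := by rw [hbb]
    have h4 := π.injective (h1.trans (h3.trans h2.symm))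
    simp only [Sum.inl.injEq, Prod.mk.injEq] at h4
    exact h4.2
  refine ⟨Equiv.ofBijective s (Finite.injective_iff_bijective.mp hinj), Equiv.ext fun x => ?_⟩
  show fR _ x = π x
  rcases x with (t | (b | r))
  · by_cases ht : s t.2 = t.1
    · rw [hJ1 t ht]; simp [fR, ht]
    · rw [hJ2 t ht]; simp [fR, ht]
  · rw [hs b]; simp [fR]
  · rw [hZ r]; simp [fR]

lemma prod_pR (y : Fin q × Fin q → R) (τ : Equiv.Perm (Fin q)) :
    ∏ b, (Matrix.of fun a b => y (a, b)) (τ b) b = ∏ x : TR q ρ, gR y (pR τ x) x := by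
  have h1 : ∀ t : Fin q × Fin q, gR (ρ := ρ) y (pR τ (.inl t)) (.inl t)
      = if τ t.2 = t.1 then y t else 1 := by
    intro t
    show gR y (fR τ (.inl t)) _ = _
    by_cases ht : τ t.2 = t.1 <;> simp [fR, gR, ht]
  have h3 : ∀ b : Fin q, gR (ρ := ρ) y (pR τ (.inr (.inl b))) (.inr (.inl b)) = 1 := by
    intro b
    show gR y (fR τ (.inr (.inl b))) _ = _
    simp [fR, gR]
  have h4 : ∀ r : ρ, gR y (pR τ (.inr (.inr r))) (.inr (.inr r)) = 1 := by
    intro r
    show gR y (fR τ (.inr (.inr r))) _ = _
    simp [fR, gR]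
  rw [Fintype.prod_sum_type, Fintype.prod_sum_type]
  simp only [h1, h3, h4, prod_const_one, mul_one]
  rw [Fintype.prod_prod_type, prod_comm]
  refine prod_congr rfl fun b _ => ?_
  simp

/-- The permanent of the second gadget. -/
theorem permanent_gR (y : Fin q × Fin q → R) :
    (gR (ρ := ρ) y).permanent = (Matrix.of fun a b => y (a, b)).permanent := by
  classical
  unfold Matrix.permanent
  refine (Fintype.sum_of_injective (pR (q := q) (ρ := ρ)) pR_inj _ _ ?_ ?_).symm
  · intro π hπ
    by_contra h1
    refine hπ (exists_pR y π fun x hx => h1 ?_)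
    exact prod_eq_zero (mem_univ x) hx
  · intro τ
    exact prod_pR y τ

/-- the gadgets are affine in the variables -/
lemma gM_eq (y : Fin q × Fin q → R) (i j : TM q ρ) :
    gM y i j = gM (fun _ => (0 : R)) i j +
      ∑ t, y t * (if (Sum.inl (Sum.inl t) : TM q ρ) = i ∧ (Sum.inl (Sum.inl t) : TM q ρ) = j
        then 1 else 0) := by
  rcases i with ((t | t) | (b | r)) <;> rcases j with ((u | u) | (c | s)) <;> simp [gM]
  by_cases h : t = u
  · subst h
    simp
  · rw [if_neg h, eq_comm, sum_eq_zero]
    intro x _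
    rw [if_neg]
    rintro ⟨rfl, rfl⟩
    exact h rfl

lemma gR_eq (y : Fin q × Fin q → R) (i j : TR q ρ) :
    gR y i j = gR (fun _ => (0 : R)) i j +
      ∑ t, y t * (if (Sum.inr (Sum.inl t.1) : TR q ρ) = i ∧ (Sum.inl t : TR q ρ) = j
        then 1 else 0) := by
  rcases i with (t | (b | r)) <;> rcases j with (u | (c | s)) <;> simp [gR]
  by_cases h : u.1 = b
  · subst h
    rw [if_pos rfl, sum_eq_single u]
    · simp
    · intro x _ hx
      rw [if_neg]
      rintro ⟨-, rfl⟩
      exact hx rfl
    · intro h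
      exact absurd (mem_univ u) h
  · rw [if_neg h, eq_comm, sum_eq_zero]
    intro x _
    rw [if_neg]
    rintro ⟨h1, rfl⟩
    exact h h1

/-- the gadgets without variables are images of integral matrices -/
lemma gM_map {K : Type} [CommRing K] (f : K →+* R) (i j : TM q ρ) :
    f (gM (fun _ => (0 : K)) i j) = gM (fun _ => (0 : R)) i j := by
  rcases i with ((t | t) | (b | r)) <;> rcases j with ((u | u) | (c | s)) <;> simp [gM]

lemma gR_map {K : Type} [CommRing K] (f : K →+* R) (i j : TR q ρ) :
    f (gR (fun _ => (0 : K)) i j) = gR (fun _ => (0 : R)) i j := by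
  rcases i with (t | (b | r)) <;> rcases j with (u | (c | s)) <;> simp [gR]

end Pool.Agent.TH711.PC
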