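import Pool.Agent.TH711.PC.Piv
import Pool.Agent.TH711.PC.Gad

/-!
# Gadgets in prescribed positions
-/

set_option autoImplicit false

namespace Pool.Agent.TH711.PC

open Finset MvPolynomial

theorem permanent_submatrix {α β R : Type} [Fintype α] [DecidableEq α] [Fintype β] [DecidableEq β]
    [CommRing R] (e f : α ≃ β) (M : Matrix β β R) :
    (M.submatrix e f).permanent = M.permanent := by
  unfold Matrix.permanent
  refine Fintype.sum_equiv (Equiv.equivCongr f e) _ _ fun σ => ?_
  refine Fintype.prod_equiv f _ _ fun i => ?_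
  simp [Equiv.equivCongr]

theorem extend_equiv {α β γ : Type} [Fintype α] [Fintype β]
    (hcard : Fintype.card α = Fintype.card β) (i : γ → α) (hi : Function.Injective i) (g : γ → β)
    (hg : Function.Injective g) : ∃ e : α ≃ β, ∀ c, e (i c) = g c := by
  classical
  let e0 : α ≃ β := Fintype.equivOfCardEq hcard
  have h0 : Function.Injective (e0 ∘ i) := e0.injective.comp hi
  let e1 : {x // x ∈ Set.range (e0 ∘ i)} ≃ {x // x ∈ Set.range g} :=
    (Equiv.ofInjective (e0 ∘ i) h0).symm.trans (Equiv.ofInjective g hg)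
  refine ⟨e0.trans e1.extendSubtype, fun c => ?_⟩
  have h1 : e0 (i c) ∈ Set.range (e0 ∘ i) := ⟨c, rfl⟩
  rw [Equiv.trans_apply, Equiv.extendSubtype_apply_of_mem _ _ h1]
  have h2 : (Equiv.ofInjective (e0 ∘ i) h0).symm ⟨e0 (i c), h1⟩ = c := by
    rw [Equiv.symm_apply_eq]
    rfl
  show ((Equiv.ofInjective g hg) ((Equiv.ofInjective (e0 ∘ i) h0).symm ⟨e0 (i c), h1⟩) : β) = g c
  rw [h2]
  rfl

/-- With the variables in the positions `p t` and the constants `A0` in addition, the permanent is
the permanent of the matrix of the variables. -/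
def Good (k : Type) [Field k] {n q : ℕ} (p : Fin q × Fin q → Fin n × Fin n)
    (A0 : Matrix (Fin n) (Fin n) k) : Prop :=
  (Matrix.of fun i j => (C (A0 i j) + ∑ t, X t * (if p t = (i, j) then 1 else 0) :
    MvPolynomial (Fin q × Fin q) k)).permanent =
  (Matrix.of fun a b => (X (a, b) : MvPolynomial (Fin q × Fin q) k)).permanent

theorem good_M (k : Type) [Field k] {n q : ℕ} (hq : 2 * q ^ 2 + q ≤ n)
    (f : Fin q × Fin q → Fin n × Fin n) (h1 : Function.Injective fun t => (f t).1)
    (h2 : Function.Injective fun t => (f t).2) : ∃ A0, Good k f A0 := by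
  classical
  have hcard : Fintype.card (TM q (Fin (n - (2 * q ^ 2 + q)))) = Fintype.card (Fin n) := by
    simp only [Fintype.card_sum, Fintype.card_prod, Fintype.card_fin]
    have : q * q = q ^ 2 := by ring
    omega
  obtain ⟨er, hr⟩ := extend_equiv hcard (fun t => Sum.inl (Sum.inl t))
    (fun a b h => by simpa using h) (fun t => (f t).1) h1
  obtain ⟨ec, hc⟩ := extend_equiv hcard (fun t => Sum.inl (Sum.inl t))
    (fun a b h => by simpa using h) (fun t => (f t).2) h2
  refine ⟨(gM (fun _ => (0 : k))).submatrix er.symm ec.symm, ?_⟩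
  unfold Good
  rw [← permanent_gM (ρ := Fin (n - (2 * q ^ 2 + q)))
    (fun t => (X t : MvPolynomial (Fin q × Fin q) k)), ← permanent_submatrix er.symm ec.symm]
  congr 1
  ext1 i j
  rw [Matrix.of_apply, Matrix.submatrix_apply, Matrix.submatrix_apply, gM_eq (fun t => X t),
    gM_map (C : k →+* MvPolynomial (Fin q × Fin q) k)]
  congr 1
  refine sum_congr rfl fun t _ => ?_
  congr 1
  refine if_congr ?_ rfl rfl
  rw [Equiv.eq_symm_apply, Equiv.eq_symm_apply, hr, hc, Prod.ext_iff]

theorem good_R (k : Type) [Field k] {n q : ℕ} (hq : 2 * q ^ 2 + q ≤ n)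
    (R : Fin q → Fin n) (j : Fin q × Fin q → Fin n) (h1 : Function.Injective R)
    (h2 : Function.Injective j) : ∃ A0, Good k (fun t => (R t.1, j t)) A0 := by
  classical
  have hcard : Fintype.card (TR q (Fin (n - (q ^ 2 + q)))) = Fintype.card (Fin n) := by
    simp only [Fintype.card_sum, Fintype.card_prod, Fintype.card_fin]
    have : q * q = q ^ 2 := by ring
    omega
  obtain ⟨er, hr⟩ := extend_equiv hcard (fun a => Sum.inr (Sum.inl a))
    (fun a b h => by simpa using h) R h1
  obtain ⟨ec, hc⟩ := extend_equiv hcard (fun t => Sum.inl t)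
    (fun a b h => by simpa using h) j h2
  refine ⟨(gR (fun _ => (0 : k))).submatrix er.symm ec.symm, ?_⟩
  unfold Good
  rw [← permanent_gR (ρ := Fin (n - (q ^ 2 + q)))
    (fun t => (X t : MvPolynomial (Fin q × Fin q) k)), ← permanent_submatrix er.symm ec.symm]
  congr 1
  ext1 i l
  rw [Matrix.of_apply, Matrix.submatrix_apply, Matrix.submatrix_apply, gR_eq (fun t => X t),
    gR_map (C : k →+* MvPolynomial (Fin q × Fin q) k)]
  congr 1
  refine sum_congr rfl fun t _ => ?_
  congr 1
  refine if_congr ?_ rfl rfl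
  rw [Equiv.eq_symm_apply, Equiv.eq_symm_apply, hr, hc, Prod.ext_iff]

theorem good_C (k : Type) [Field k] {n q : ℕ} (hq : 2 * q ^ 2 + q ≤ n)
    (Cc : Fin q → Fin n) (i : Fin q × Fin q → Fin n) (h1 : Function.Injective Cc)
    (h2 : Function.Injective i) : ∃ A0, Good k (fun t => (i t, Cc t.2)) A0 := by
  classical
  obtain ⟨A, hA⟩ := good_R k hq Cc (fun t => i t.swap) h1 (h2.comp Prod.swap_injective)
  refine ⟨A.transpose, ?_⟩
  unfold Good at hA ⊢
  have h3 := congrArg (rename (Prod.swap : Fin q × Fin q → Fin q × Fin q)) hA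
  have h4 : ∀ {N : ℕ} (M : Matrix (Fin N) (Fin N) (MvPolynomial (Fin q × Fin q) k)),
      rename (Prod.swap : Fin q × Fin q → Fin q × Fin q) M.permanent =
        (Matrix.of fun a b => rename (Prod.swap : Fin q × Fin q → Fin q × Fin q) (M b a)).permanent
      := by
    intro N M
    rw [← Matrix.permanent_transpose M]
    unfold Matrix.permanent
    rw [map_sum]
    refine sum_congr rfl fun σ _ => ?_
    rw [map_prod]
    rfl
  rw [h4, h4] at h3
  convert h3 using 2
  · ext1 a b
    simp only [Matrix.of_apply, Matrix.transpose_apply, map_add, rename_C, map_sum, map_mul,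
      rename_X]
    congr 1
    refine Fintype.sum_equiv (Equiv.prodComm _ _) _ _ fun t => ?_
    simp only [Equiv.prodComm_apply, Prod.swap_swap, Prod.fst_swap]
    congr 1
    by_cases h : (i t, Cc t.2) = (a, b)
    · rw [if_pos h, if_pos]
      · simp
      · simp only [Prod.mk.injEq] at h ⊢
        exact ⟨h.2, h.1⟩
    · rw [if_neg h, if_neg]
      · simp
      · intro h'
        simp only [Prod.mk.injEq] at h h'
        exact h ⟨h'.2, h'.1⟩
  · ext1 a b
    simp

/-- Gadgets exist in every large set of positions. -/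
theorem exists_good (k : Type) [Field k] {n q : ℕ} (hq1 : 1 ≤ q) (hq : 2 * q ^ 2 + q ≤ n)
    (S : Finset (Fin n × Fin n)) (hS : 2 * n * (q - 1) + 2 * q ^ 4 ≤ S.card) :
    ∃ (p : Fin q × Fin q → Fin n × Fin n) (A0 : Matrix (Fin n) (Fin n) k),
      (∀ t, p t ∈ S) ∧ Good k p A0 := by
  rcases trichotomy q hq1 S hS with ⟨f, h1, h2, h3⟩ | ⟨R, j, h1, h2, h3⟩ | ⟨Cc, i, h1, h2, h3⟩
  · obtain ⟨A0, hA⟩ := good_M k hq f h2 h3
    exact ⟨f, A0, h1, hA⟩
  · obtain ⟨A0, hA⟩ := good_R k hq R j h1 h2
    exact ⟨_, A0, h3, hA⟩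
  · obtain ⟨A0, hA⟩ := good_C k hq Cc i h1 h2
    exact ⟨_, A0, h3, hA⟩

end Pool.Agent.TH711.PC
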