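import Pool.Agent.TH711.PC.Emb
import Pool.Agent.TH837.VP.Bd

/-!
# The permanent on the cosets of a linear space of matrices: the reduction
-/

set_option autoImplicit false

namespace Pool.Agent.TH711.PC

open Finset MvPolynomial Pool.Agent.TH837.VP.Bd

variable {k : Type} [Field k]

/-- The permanent on the coset `A + span b`, in the coordinates given by `b`. -/
noncomputable def cper {n d : ℕ} (b : Fin d → Matrix (Fin n) (Fin n) k)
    (A : Matrix (Fin n) (Fin n) k) : MvPolynomial (Fin d) k :=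
  (Matrix.of fun i j =>
    (C (A i j) + ∑ s, C (b s i j) * X s : MvPolynomial (Fin d) k)).permanent

theorem ringHom_permanent {R S : Type} [CommRing R] [CommRing S] {n : ℕ} (f : R →+* S)
    (M : Matrix (Fin n) (Fin n) R) :
    f M.permanent = (Matrix.of fun i j => f (M i j)).permanent := by
  unfold Matrix.permanent
  rw [map_sum]
  refine sum_congr rfl fun σ _ => ?_
  rw [map_prod]
  rfl

theorem algHom_permanent {σ τ : Type} {n : ℕ} (f : MvPolynomial σ k →ₐ[k] MvPolynomial τ k)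
    (M : Matrix (Fin n) (Fin n) (MvPolynomial σ k)) :
    f M.permanent = (Matrix.of fun i j => f (M i j)).permanent :=
  ringHom_permanent (f : MvPolynomial σ k →+* MvPolynomial τ k) M

theorem permanent_scale {R : Type} [CommRing R] {n : ℕ} (r c : Fin n → R)
    (M : Matrix (Fin n) (Fin n) R) :
    (Matrix.of fun i j => r i * c j * M i j).permanent =
      (∏ i, r i) * (∏ j, c j) * M.permanent := by
  unfold Matrix.permanent
  rw [mul_sum]
  refine sum_congr rfl fun σ _ => ?_
  simp only [Matrix.of_apply]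
  rw [prod_mul_distrib, prod_mul_distrib, Equiv.prod_comp σ r]

/-- The weight of a position. -/
def wt {n : ℕ} (u : Fin n × Fin n) : ℕ := n * (u.1 : ℕ) + ((u.2 : ℕ) + 1)

theorem wt_inj {n : ℕ} : Function.Injective (wt (n := n)) := by
  rintro ⟨i, j⟩ ⟨i', j'⟩ h
  simp only [wt] at h
  have h1 : (finProdFinEquiv (i, j) : ℕ) = finProdFinEquiv (i', j') := by
    simp only [finProdFinEquiv, Equiv.coe_fn_mk]
    omega
  exact finProdFinEquiv.injective (Fin.ext h1)

theorem wt_pos {n : ℕ} (u : Fin n × Fin n) : 1 ≤ wt u := by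
  unfold wt
  omega

theorem wt_le {n : ℕ} (u : Fin n × Fin n) : wt u ≤ n * n := by
  have h := (finProdFinEquiv u).2
  simp only [finProdFinEquiv, Equiv.coe_fn_mk] at h
  unfold wt
  omega

theorem natDegree_permanent_le {R : Type} [CommRing R] {n : ℕ}
    (M : Matrix (Fin n) (Fin n) (Polynomial R)) (D : ℕ) (h : ∀ i j, (M i j).natDegree ≤ D) :
    M.permanent.natDegree ≤ n * D := by
  unfold Matrix.permanent
  refine Polynomial.natDegree_sum_le_of_forall_le _ _ fun σ _ => ?_
  refine (Polynomial.natDegree_prod_le _ _).trans ?_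
  refine (sum_le_card_nsmul _ _ D fun i _ => h _ _).trans ?_
  simp

theorem interp_poly {R : Type} [CommRing R] (f : k →+* R) (D : ℕ) (e l : Fin (D + 1) → k)
    (hl : ∀ m ≤ D, ∑ j, l j * e j ^ m = if m = 0 then 1 else 0) (P : Polynomial R)
    (hP : P.natDegree ≤ D) : P.eval 0 = ∑ j, f (l j) * P.eval (f (e j)) := by
  have h1 : ∀ x, P.eval x = ∑ m ∈ range (D + 1), P.coeff m * x ^ m := fun x =>
    Polynomial.eval_eq_sum_range' (Nat.lt_succ_of_le hP) x
  simp only [h1, mul_sum]
  rw [sum_comm]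
  refine sum_congr rfl fun m hm => ?_
  have h2 := congrArg f (hl m (Nat.lt_succ_iff.1 (mem_range.1 hm)))
  rw [map_sum] at h2
  have h3 : ∑ j, f (l j) * (P.coeff m * f (e j) ^ m) = P.coeff m * ∑ j, f (l j * e j ^ m) := by
    rw [mul_sum]
    refine sum_congr rfl fun j _ => ?_
    rw [map_mul, map_pow]
    ring
  rw [h3, h2]
  by_cases h : m = 0
  · simp [h]
  · simp [h]

section identity

variable {n q d : ℕ} (p : Fin q × Fin q → Fin n × Fin n) (A0 A1 : Matrix (Fin n) (Fin n) k)
  (v : Fin q × Fin q → Fin n × Fin n → k)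

/-- The polynomial matrix that interpolates between the gadget and the coset. -/
noncomputable def NN :
    Matrix (Fin n) (Fin n) (Polynomial (MvPolynomial (Fin q × Fin q) k)) :=
  Matrix.of fun i j => Polynomial.C (C (A0 i j)) + Polynomial.C (C (A1 i j)) * Polynomial.X +
    ∑ t, Polynomial.C (X t * C (v t (i, j))) * Polynomial.X ^ (wt (i, j) - wt (p t))

theorem NN_natDegree (hn : 1 ≤ n) : (NN p A0 A1 v).permanent.natDegree ≤ n * (n * n) := by
  refine natDegree_permanent_le _ _ fun i j => ?_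
  have h1 : 1 ≤ n * n := Nat.mul_pos hn hn
  unfold NN
  rw [Matrix.of_apply]
  refine Polynomial.natDegree_add_le_of_degree_le (Polynomial.natDegree_add_le_of_degree_le ?_ ?_) ?_
  · simp
  · refine Polynomial.natDegree_mul_le.trans ?_
    rw [Polynomial.natDegree_C, zero_add]
    exact Polynomial.natDegree_X_le.trans h1
  · refine Polynomial.natDegree_sum_le_of_forall_le _ _ fun t _ => ?_
    refine (Polynomial.natDegree_C_mul_X_pow_le _ _).trans ?_
    have := wt_le (i, j)
    omega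

theorem NN_zero (hgood : Good k p A0) (hv1 : ∀ t, v t (p t) = 1)
    (hv2 : ∀ t u, wt u < wt (p t) → v t u = 0) :
    (NN p A0 A1 v).permanent.eval 0 =
      (Matrix.of fun a b => (X (a, b) : MvPolynomial (Fin q × Fin q) k)).permanent := by
  unfold Good at hgood
  rw [← hgood]
  have h := ringHom_permanent (Polynomial.evalRingHom (0 : MvPolynomial (Fin q × Fin q) k))
    (NN p A0 A1 v)
  rw [Polynomial.coe_evalRingHom] at h
  rw [h]
  congr 1
  ext1 i j
  simp only [Matrix.of_apply, NN, Polynomial.eval_add,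
    Polynomial.eval_C, Polynomial.eval_mul, Polynomial.eval_X, mul_zero, add_zero,
    Polynomial.eval_finsetSum, Polynomial.eval_pow]
  congr 1
  refine sum_congr rfl fun t _ => ?_
  rw [mul_assoc]
  congr 1
  by_cases h1 : p t = (i, j)
  · rw [if_pos h1, ← h1, hv1]
    simp
  · rw [if_neg h1]
    rcases lt_trichotomy (wt (i, j)) (wt (p t)) with h2 | h2 | h2
    · rw [hv2 t _ h2]
      simp
    · exact absurd (wt_inj h2).symm h1
    · rw [zero_pow (by omega), mul_zero]

theorem NN_eval (b : Fin d → Matrix (Fin n) (Fin n) k)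
    (hv2 : ∀ t u, wt u < wt (p t) → v t u = 0)
    (β : Fin q × Fin q → Fin d → k) (hβ : ∀ t u, v t u = ∑ s, β t s * b s u.1 u.2)
    (θ : k) (hθ : θ ≠ 0) :
    (NN p A0 A1 v).permanent.eval (C θ⁻¹) =
      C ((∏ i : Fin n, θ⁻¹ ^ (n * (i : ℕ))) * ∏ j : Fin n, θ⁻¹ ^ ((j : ℕ) + 1)) *
      aeval (fun s => ∑ t, C (θ ^ wt (p t) * β t s) * (X t : MvPolynomial (Fin q × Fin q) k))
        (cper b (Matrix.of fun i j => θ ^ wt (i, j) * A0 i j + θ ^ (wt (i, j) - 1) * A1 i j)) := by
  have h := ringHom_permanent (Polynomial.evalRingHom (C θ⁻¹ : MvPolynomial (Fin q × Fin q) k))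
    (NN p A0 A1 v)
  rw [Polynomial.coe_evalRingHom] at h
  rw [h]
  unfold cper
  rw [algHom_permanent, map_mul, map_prod, map_prod, ← permanent_scale]
  congr 1
  ext1 i j
  simp only [Matrix.of_apply, NN, Polynomial.eval_add, Polynomial.eval_C, Polynomial.eval_mul,
    Polynomial.eval_X, Polynomial.eval_finsetSum, Polynomial.eval_pow, map_add, map_sum, map_mul,
    aeval_C, aeval_X, algebraMap_eq]
  have hw : ∀ x : MvPolynomial (Fin q × Fin q) k,
      C (θ⁻¹ ^ (n * (i : ℕ))) * C (θ⁻¹ ^ ((j : ℕ) + 1)) * x = C (θ⁻¹ ^ wt (i, j)) * x := by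
    intro x
    rw [← C_mul, ← pow_add]
    rfl
  rw [hw, mul_add]
  congr 1
  · rw [← C_mul, ← C_mul, ← C_mul, ← C_add, ← C_add, ← C_mul]
    congr 1
    have h3 : θ⁻¹ ^ wt (i, j) * θ ^ wt (i, j) = 1 := by
      rw [← mul_pow, inv_mul_cancel₀ hθ, one_pow]
    have h4 : θ⁻¹ ^ wt (i, j) * θ ^ (wt (i, j) - 1) = θ⁻¹ := by
      obtain ⟨m, hm⟩ : ∃ m, wt (i, j) = m + 1 := ⟨wt (i, j) - 1, by have := wt_pos (i, j); omega⟩
      rw [hm, Nat.add_sub_cancel, pow_succ]
      rw [show θ⁻¹ ^ m * θ⁻¹ * θ ^ m = θ⁻¹ ^ m * θ ^ m * θ⁻¹ by ring, ← mul_pow,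
        inv_mul_cancel₀ hθ, one_pow, one_mul]
    linear_combination (-(A0 i j)) * h3 - A1 i j * h4
  · have key : ∀ t, (X t * C (v t (i, j)) * C θ⁻¹ ^ (wt (i, j) - wt (p t)) :
        MvPolynomial (Fin q × Fin q) k) =
        C (θ⁻¹ ^ wt (i, j) * (θ ^ wt (p t) * v t (i, j))) * X t := by
      intro t
      rw [mul_assoc, ← C_pow, ← C_mul, mul_comm (X t)]
      congr 2
      rcases lt_or_ge (wt (i, j)) (wt (p t)) with h1 | h1
      · rw [hv2 t _ h1]
        simp
      · obtain ⟨m, hm⟩ := Nat.exists_eq_add_of_le h1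
        rw [hm, Nat.add_sub_cancel_left, pow_add]
        have h5 : θ⁻¹ ^ wt (p t) * θ ^ wt (p t) = 1 := by
          rw [← mul_pow, inv_mul_cancel₀ hθ, one_pow]
        linear_combination (-(v t (i, j) * θ⁻¹ ^ m)) * h5
    rw [sum_congr rfl fun t _ => key t]
    simp only [mul_sum]
    rw [sum_comm]
    refine sum_congr rfl fun t _ => ?_
    rw [hβ t (i, j)]
    simp only [mul_sum, map_sum, sum_mul]
    refine sum_congr rfl fun s _ => ?_
    simp only [map_mul]
    ring

end identity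

/-- Suitable nodes. -/
theorem exists_theta [Infinite k] {n : ℕ} (A0 A1 : Matrix (Fin n) (Fin n) k)
    (g : MvPolynomial (Fin n × Fin n) k)
    (h1 : eval (fun u => A0 u.1 u.2 + A1 u.1 u.2) g ≠ 0) (N : ℕ) :
    ∃ θ : Fin N → k, Function.Injective θ ∧ ∀ j, θ j ≠ 0 ∧
      eval (fun u => θ j ^ wt u * A0 u.1 u.2 + θ j ^ (wt u - 1) * A1 u.1 u.2) g ≠ 0 := by
  classical
  set h : Polynomial k := aeval (fun u : Fin n × Fin n => Polynomial.X ^ wt u *
    Polynomial.C (A0 u.1 u.2) + Polynomial.X ^ (wt u - 1) * Polynomial.C (A1 u.1 u.2)) g with hh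
  have hev : ∀ θ : k, h.eval θ =
      eval (fun u => θ ^ wt u * A0 u.1 u.2 + θ ^ (wt u - 1) * A1 u.1 u.2) g := by
    intro θ
    rw [← Polynomial.coe_aeval_eq_eval, hh, MvPolynomial.comp_aeval_apply,
      ← MvPolynomial.coe_aeval_eq_eval]
    refine congrArg (fun f : Fin n × Fin n → k => aeval f g) (funext fun u => ?_)
    simp only [map_add, map_mul, map_pow, Polynomial.aeval_X, Polynomial.aeval_C,
      Algebra.algebraMap_self, RingHom.id_apply]
  have hne : Polynomial.X * h ≠ 0 := by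
    intro h0
    have h2 := congrArg (Polynomial.eval 1) h0
    rw [Polynomial.eval_mul, Polynomial.eval_X, one_mul, hev, Polynomial.eval_zero] at h2
    simp only [one_pow, one_mul] at h2
    exact h1 h2
  have hfin : (((Polynomial.X * h).roots.toFinset : Finset k) : Set k).Finite :=
    Finset.finite_toSet _
  have hinf : Infinite (((Polynomial.X * h).roots.toFinset : Set k)ᶜ : Set k) :=
    Set.infinite_coe_iff.2 hfin.infinite_compl
  let E := Infinite.natEmbedding (((Polynomial.X * h).roots.toFinset : Set k)ᶜ : Set k)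
  refine ⟨fun j => (E j : k), fun a b hab => ?_, fun j => ?_⟩
  · exact Fin.ext (E.injective (Subtype.ext hab))
  · have h3 : (E j : k) ∉ (Polynomial.X * h).roots.toFinset := fun h4 => (E j).2 (mem_coe.2 h4)
    rw [Multiset.mem_toFinset, Polynomial.mem_roots hne, Polynomial.IsRoot.def,
      Polynomial.eval_mul, Polynomial.eval_X, hev, mul_eq_zero, not_or] at h3
    exact h3

/-- Programs for linear forms. -/
theorem slo_forms {d q : ℕ} (a : Fin q × Fin q → Fin d → k) :
    ∃ L0 : List (MvPolynomial (Fin q × Fin q) (RatFunc k)), Slo L0 ∧ L0.length ≤ d * (q * q * 2) ∧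
      ∀ s, Av L0 (map (RatFunc.C : k →+* RatFunc k)
        (∑ t, C (a t s) * (X t : MvPolynomial (Fin q × Fin q) k))) := by
  have key : ∀ s : Fin d, ∃ L : List (MvPolynomial (Fin q × Fin q) (RatFunc k)), Slo L ∧
      L.length ≤ q * q * (0 + 2) ∧ Av L (map (RatFunc.C : k →+* RatFunc k)
        (∑ t, C (a t s) * (X t : MvPolynomial (Fin q × Fin q) k))) := by
    intro s
    obtain ⟨L, h1, h2, h3⟩ := Slo.linear_combination (σ := Fin q × Fin q) (q * q) 0
      (fun j => RatFunc.C (a (finProdFinEquiv.symm j) s)) (fun j => X (finProdFinEquiv.symm j))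
      (fun j => ⟨[], trivial, by simp, Or.inl ⟨_, rfl⟩⟩)
    refine ⟨L, h1, h2, ?_⟩
    convert h3 using 1
    rw [map_sum]
    refine (Fintype.sum_equiv finProdFinEquiv.symm _ _ fun j => ?_).symm
    simp
  choose f f1 f2 f3 using key
  obtain ⟨L, h1, h2, h3⟩ := Slo.flat (q * q * (0 + 2)) d f fun s => ⟨f1 s, f2 s⟩
  exact ⟨L, h1, by simpa using h2, fun s => h3 s _ (f3 s)⟩

/-- substitution of linear forms -/
theorem apx_subst {d q r : ℕ} (f : MvPolynomial (Fin d) k) (hf : Apx r f)
    (a : Fin q × Fin q → Fin d → k) :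
    Apx (r + d * (q * q * 2))
      (aeval (fun s => ∑ t, C (a t s) * (X t : MvPolynomial (Fin q × Fin q) k)) f) := by
  obtain ⟨P, hP, L, h1, h2, h3⟩ := hf
  obtain ⟨L0, k1, k2, k3⟩ := slo_forms a
  obtain ⟨L', l1, l2, l4⟩ := Slo.subst
    (aeval fun s => map (RatFunc.C : k →+* RatFunc k)
      (∑ t, C (a t s) * (X t : MvPolynomial (Fin q × Fin q) k))) L0 k1
    (by
      intro v
      rw [aeval_X]
      exact k3 v) L h1
  exact ⟨_, hP.subst _, L', l1, by rw [l2]; omega, l4 _ h3⟩

/-- linear combinations -/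
theorem apx_lin {σ : Type} {N r : ℕ} (c : Fin N → k) (f : Fin N → MvPolynomial σ k)
    (hf : ∀ j, Apx r (f j)) : Apx (N * (r + 2)) (∑ j, C (c j) * f j) := by
  choose P hP hL using hf
  obtain ⟨L, b1, b2, b3⟩ := Slo.linear_combination N r (fun j => RatFunc.C (c j)) _ hL
  exact ⟨_, Sp.lin c hP, L, b1, b2, b3⟩

theorem finrank_span_pos {n d : ℕ} (b : Fin d → Matrix (Fin n) (Fin n) k)
    (hb : LinearIndependent k b) :
    LinearIndependent k (fun s (u : Fin n × Fin n) => b s u.1 u.2) := by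
  have h := hb.map' (LinearEquiv.curry k k (Fin n) (Fin n)).symm.toLinearMap
    (LinearEquiv.ker _)
  exact h

theorem card_le {n d : ℕ} (b : Fin d → Matrix (Fin n) (Fin n) k)
    (hb : LinearIndependent k b) : d ≤ n * n := by
  have h := hb.fintype_card_le_finrank
  rw [Module.finrank_matrix] at h
  simpa using h

/-- **The reduction.** -/
theorem reduction [Infinite k] {n q d r : ℕ} (hq1 : 1 ≤ q) (hq : 2 * q ^ 2 + q ≤ n)
    (b : Fin d → Matrix (Fin n) (Fin n) k) (hb : LinearIndependent k b)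
    (hd : 2 * n * (q - 1) + 2 * q ^ 4 ≤ d) (g : MvPolynomial (Fin n × Fin n) k) (hg : g ≠ 0)
    (h : ∀ A : Matrix (Fin n) (Fin n) k, eval (fun u => A u.1 u.2) g ≠ 0 → Apx r (cper b A)) :
    Apx ((n ^ 3 + 1) * (r + n ^ 3 + 2))
      (Matrix.of fun a b => (X (a, b) : MvPolynomial (Fin q × Fin q) k)).permanent := by
  classical
  set b' : Fin d → Fin n × Fin n → k := fun s u => b s u.1 u.2 with hb'
  have hli : LinearIndependent k b' := finrank_span_pos b hb
  obtain ⟨S, hS, hpiv⟩ := exists_pivots (wt (n := n)) (Submodule.span k (Set.range b'))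
  rw [finrank_span_eq_card hli, Fintype.card_fin] at hS
  obtain ⟨p, A0, hp, hgood⟩ := exists_good k hq1 hq S (hd.trans hS)
  choose v hv0 hv1 hv2 using fun t => hpiv (p t) (hp t)
  have hβ : ∀ t, ∃ β : Fin d → k, ∑ s, β s • b' s = v t := fun t =>
    (Submodule.mem_span_range_iff_exists_fun k).1 (hv0 t)
  choose β hβ using hβ
  have hβ' : ∀ t u, v t u = ∑ s, β t s * b s u.1 u.2 := by
    intro t u
    rw [← hβ t, Finset.sum_apply]
    rfl
  obtain ⟨z, hz⟩ : ∃ z : Fin n × Fin n → k, eval z g ≠ 0 := by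
    by_contra hcon
    push Not at hcon
    exact hg (MvPolynomial.funext fun z => by rw [hcon z, map_zero])
  set A1 : Matrix (Fin n) (Fin n) k := Matrix.of fun i j => z (i, j) - A0 i j with hA1
  have hz' : eval (fun u => A0 u.1 u.2 + A1 u.1 u.2) g ≠ 0 := by
    have : (fun u : Fin n × Fin n => A0 u.1 u.2 + A1 u.1 u.2) = z := by
      funext u
      simp [hA1]
    rw [this]
    exact hz
  obtain ⟨θ, hθ1, hθ2⟩ := exists_theta A0 A1 g hz' (n * (n * n) + 1)
  obtain ⟨l, hl⟩ := exists_interp (n * (n * n)) (fun j => (θ j)⁻¹)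
    (fun i j hij => hθ1 (inv_injective hij))
  have hn : 1 ≤ n := by
    have : 1 ≤ q ^ 2 := Nat.one_le_pow _ _ hq1
    omega
  have hint := interp_poly (C : k →+* MvPolynomial (Fin q × Fin q) k) _ _ l hl
    (NN p A0 A1 v).permanent (NN_natDegree p A0 A1 v hn)
  rw [NN_zero p A0 A1 v hgood hv1 hv2] at hint
  rw [hint]
  simp only [NN_eval p A0 A1 v b hv2 β hβ' _ (hθ2 _).1, ← mul_assoc, ← C_mul]
  refine Apx.mono (apx_lin _ _ fun j => apx_subst _ (h _ ?_) _) ?_
  · simpa using (hθ2 j).2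
  · have h1 := card_le b hb
    have h2 : d * (q * q * 2) ≤ n ^ 3 := by
      calc d * (q * q * 2) ≤ n * n * n := Nat.mul_le_mul h1 (by nlinarith)
        _ = n ^ 3 := by ring
    rw [show n * (n * n) = n ^ 3 by ring]
    exact Nat.mul_le_mul_left _ (by omega)

end Pool.Agent.TH711.PC
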